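import Pool.Agent.Helper38.TH.Goals4
import Pool.Agent.Helper61.PP.CMNB

/-!
# Project TH (MP_fc6b1e_nt): packet G4_PTW
-/

set_option autoImplicit false

namespace Pool.Agent.Helper83.TH

open Finset Pool.Agent.Helper17.PP Pool.Agent.Helper17.PP0 Pool.Agent.Helper17.PP2
  Pool.Agent.Helper11.M3 Pool.Agent.Helper38.TH
open Pool.Agent.Helper61.PP (geo_rank)

theorem g4_ptw : G4_PTW := by
  classical
  intro p B B₀ k U Λ C _ _ _ _ _ _ _ S m b P₁ hP₁
  have hQ : (1 : ℝ) < Fintype.card k := by exact_mod_cast Fintype.one_lt_card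
  set W : Finset B := b.filter fun q => Wv S b q ∧ S.bl q < m with hW
  have hWm : ∀ q, q ∈ W ↔ q ∈ b ∧ Wv S b q ∧ S.bl q < m := fun q => by
    rw [hW, mem_filter]
  set V : Finset B := b.filter fun q => S.spl q ∧ m ≤ S.bl q with hV
  have hVm : ∀ q, q ∈ V ↔ q ∈ b ∧ S.spl q ∧ m ≤ S.bl q := fun q => by
    rw [hV, mem_filter]
  have hbl : ∀ q ∈ W, ∀ q' ∈ W, S.bl q = S.bl q' → q = q' := by
    intro q hq q' hq' h
    by_contra hne
    exact ((hWm q).1 hq).2.1.uniq q' ((hWm q').1 hq').1 (fun e => hne e.symm)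
      ((hWm q').1 hq').2.1.spl h.symm
  set h : B → ℕ := fun q => (W.filter fun q' => S.bl q < S.bl q').card with hh
  have hlt : ∀ q ∈ W, ∀ q' ∈ W, S.bl q < S.bl q' → h q' < h q := by
    intro q _ q' hq' hqq
    apply Finset.card_lt_card
    refine ⟨fun x hx => ?_, fun hsub => ?_⟩
    · rw [mem_filter] at hx ⊢
      exact ⟨hx.1, hqq.trans hx.2⟩
    · have := hsub (mem_filter.2 ⟨hq', hqq⟩)
      exact lt_irrefl _ (mem_filter.1 this).2
  have hinj : Set.InjOn h (W : Set B) := by
    intro q hq q' hq' he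
    apply hbl q hq q' hq'
    rcases lt_trichotomy (S.bl q) (S.bl q') with h1 | h1 | h1
    · have := hlt q hq q' hq' h1
      omega
    · exact h1
    · have := hlt q' hq' q hq h1
      omega
  have hle : ∀ q ∈ W, V.card + h q ≤ (ra₄ S b q P₁).card := by
    intro q hq
    have hdis : Disjoint V (W.filter fun q' => S.bl q < S.bl q') := by
      rw [Finset.disjoint_left]
      intro x hx hx2
      rw [mem_filter] at hx2
      have h1 := ((hVm x).1 hx).2.2
      have h2 := ((hWm x).1 hx2.1).2.2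
      omega
    rw [hh]
    simp only []
    rw [← Finset.card_union_of_disjoint hdis]
    apply Finset.card_le_card
    intro q' hq'
    rw [mem_union] at hq'
    have hq2 := (hWm q).1 hq
    have h3 : q' ∈ b ∧ S.spl q' ∧ S.bl q < S.bl q' := by
      rcases hq' with h1 | h1
      · have h4 := (hVm q').1 h1
        exact ⟨h4.1, h4.2.1, by omega⟩
      · rw [mem_filter] at h1
        exact ⟨((hWm q').1 h1.1).1, ((hWm q').1 h1.1).2.1.spl, h1.2⟩
    rw [ra₄, mem_filter, mem_erase, mem_erase]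
    refine ⟨⟨?_, ?_, h3.1⟩, h3.2.1, h3.2.2⟩
    · rintro rfl
      exact hP₁ h3.2.1
    · rintro rfl
      exact lt_irrefl _ h3.2.2
  have hstep : ∀ q ∈ W, ((Fintype.card k : ℝ) - 1) * (1 / Fintype.card k : ℝ) ^ (ra₄ S b q P₁).card ≤
      (1 / Fintype.card k : ℝ) ^ V.card *
        (((Fintype.card k : ℝ) - 1) * (1 / Fintype.card k : ℝ) ^ h q) := by
    intro q hq
    have h1 : (1 / Fintype.card k : ℝ) ^ (ra₄ S b q P₁).card ≤
        (1 / Fintype.card k : ℝ) ^ (V.card + h q) := by
      apply pow_le_pow_of_le_one (by positivity) _ (hle q hq)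
      rw [div_le_one (by linarith)]
      exact hQ.le
    calc ((Fintype.card k : ℝ) - 1) * (1 / Fintype.card k : ℝ) ^ (ra₄ S b q P₁).card
        ≤ ((Fintype.card k : ℝ) - 1) * (1 / Fintype.card k : ℝ) ^ (V.card + h q) :=
          mul_le_mul_of_nonneg_left h1 (by linarith)
      _ = _ := by rw [pow_add]; ring
  refine le_trans (Finset.sum_le_sum hstep) ?_
  rw [← Finset.mul_sum, mul_comm]
  exact mul_le_mul_of_nonneg_right (geo_rank W h hinj _ hQ) (by positivity)

end Pool.Agent.Helper83.TH
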