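import Pool.Agent.Helper63.TH.Goals

/-!
# Packet PT-TH-VAL (MP_705522_gt): upper bounds of `V θ 3`, `V θ 4` at a point
-/

set_option autoImplicit false

namespace Pool.Agent.Helper83.TH

open MeasureTheory Set Filter Topology
open Pool.Agent.Helper53.PT Pool.Agent.Helper63.TH

theorem vR_nn (v : ℕ) : 0 ≤ vR v := by unfold vR; positivity

theorem vR_add (a b : ℕ) : vR (Nat.add a b) = vR a + vR b := by
  unfold vR
  rw [show Nat.add a b = a + b from rfl]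
  push_cast
  ring

theorem vR_zero : vR 0 = 0 := by unfold vR; simp

theorem vR_div_le (a b : ℕ) : vR (Nat.div a b) ≤ vR a / b := by
  unfold vR
  rw [show Nat.div a b = a / b from rfl]
  have h : ((a / b : ℕ) : ℝ) ≤ (a : ℝ) / b := Nat.cast_div_le
  calc ((a / b : ℕ) : ℝ) / 2 ^ 40 ≤ ((a : ℝ) / b) / 2 ^ 40 := by gcongr
    _ = (a : ℝ) / 2 ^ 40 / b := by ring

theorem vR_le_succ_div (a b : ℕ) (hb : 0 < b) : vR a / b ≤ vR (Nat.succ (Nat.div a b)) := by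
  unfold vR
  rw [show Nat.succ (Nat.div a b) = a / b + 1 from rfl]
  have hb' : (0 : ℝ) < b := by exact_mod_cast hb
  have h1 : a ≤ (a / b + 1) * b := by
    have := Nat.div_add_mod a b
    have h2 := Nat.mod_lt a hb
    nlinarith
  have h2 : (a : ℝ) ≤ ((a / b + 1 : ℕ) : ℝ) * b := by exact_mod_cast h1
  have h3 : (a : ℝ) / b ≤ ((a / b + 1 : ℕ) : ℝ) := by
    rw [div_le_iff₀ hb']; exact h2
  calc (a : ℝ) / 2 ^ 40 / b = ((a : ℝ) / b) / 2 ^ 40 := by ring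
    _ ≤ ((a / b + 1 : ℕ) : ℝ) / 2 ^ 40 := by gcongr

theorem vR_sumN (f : ℕ → ℕ) (n : ℕ) : vR (sumN f n) = ∑ i ∈ Finset.range n, vR (f i) := by
  induction n with
  | zero => simp [sumN, vR_zero]
  | succ n ih =>
    rw [Finset.sum_range_succ, ← ih, ← vR_add]
    rfl

theorem powL_zero (n : ℕ) : N.powL 0 (n + 1) = 0 := by
  show Nat.shiftRight (Nat.mul (N.powL 0 n) 0) 40 = 0
  rw [show Nat.mul (N.powL 0 n) 0 = 0 from Nat.mul_zero _]
  rfl

/-- the argument `(i+1)²/n` and its floor -/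
theorem xn_bounds (n i : ℕ) (hn : 0 < n) : aR (xn n i) ≤ ((i : ℝ) + 1) ^ 2 / n ∧
    ((i : ℝ) + 1) ^ 2 / n < aR (xn n i + 1) := by
  have hn' : (0 : ℝ) < n := by exact_mod_cast hn
  have e : xn n i = ((i + 1) * (i + 1) * 2 ^ 26) / n := by
    unfold xn
    rw [show Nat.shiftLeft (Nat.mul (Nat.succ i) (Nat.succ i)) 26 = (i + 1) * (i + 1) * 2 ^ 26 from
      Nat.shiftLeft_eq _ _]
    rfl
  have h1 := Nat.div_add_mod ((i + 1) * (i + 1) * 2 ^ 26) n
  have h2 := Nat.mod_lt ((i + 1) * (i + 1) * 2 ^ 26) hn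
  rw [← e] at h1
  have h3 : n * xn n i ≤ (i + 1) * (i + 1) * 2 ^ 26 := by omega
  have h4 : (i + 1) * (i + 1) * 2 ^ 26 < n * (xn n i + 1) := by
    have h5 : n * (xn n i + 1) = n * xn n i + n := by ring
    rw [h5]; omega
  have h3' : (n : ℝ) * xn n i ≤ ((i : ℝ) + 1) * ((i : ℝ) + 1) * 2 ^ 26 := by exact_mod_cast h3
  have h4' : ((i : ℝ) + 1) * ((i : ℝ) + 1) * 2 ^ 26 < (n : ℝ) * ((xn n i : ℝ) + 1) := by
    exact_mod_cast h4
  unfold aR
  constructor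
  · rw [div_le_div_iff₀ (by positivity) hn']
    nlinarith
  · push_cast
    rw [div_lt_div_iff₀ hn' (by positivity)]
    nlinarith

theorem xn_lt (n i : ℕ) (hn : 0 < n) (h : (i + 1) * (i + 1) < 64 * n) : xn n i < 2 ^ 32 := by
  have e : xn n i = ((i + 1) * (i + 1) * 2 ^ 26) / n := by
    unfold xn
    rw [show Nat.shiftLeft (Nat.mul (Nat.succ i) (Nat.succ i)) 26 = (i + 1) * (i + 1) * 2 ^ 26 from
      Nat.shiftLeft_eq _ _]
    rfl
  rw [e, Nat.div_lt_iff_lt_mul hn]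
  omega

/-- `V θ n` and the sampling formula -/
theorem V_le {θ : ℝ} (h0 : 0 < θ) (h1 : θ < 1 / 2) (n : ℕ) (hn : 0 < n) :
    Summable (fun i : ℕ => f0 θ (((i : ℝ) + 1) ^ 2 / n) ^ n / ((i : ℝ) + 1) ^ 2) ∧
    V θ n ≤ Real.pi ^ 2 / 6 + 1 / 4 -
      ∑' i : ℕ, f0 θ (((i : ℝ) + 1) ^ 2 / n) ^ n / ((i : ℝ) + 1) ^ 2 := by
  have hn' : (0 : ℝ) < n := by exact_mod_cast hn
  have hS : Sx (fun _ : Fin n => 1 / (n : ℝ)) := by
    refine ⟨fun _ => by positivity, ?_⟩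
    simp only [Finset.sum_const, Finset.card_univ, Fintype.card_fin, nsmul_eq_mul]
    field_simp
  obtain ⟨-, -, hs, hle, -⟩ := aHS h0 h1 (fun _ : Fin n => 1 / (n : ℝ)) hS
  have e : (fun i : ℕ => PP θ (fun _ : Fin n => 1 / (n : ℝ)) (i + 1) / ((i : ℝ) + 1) ^ 2) =
      (fun i : ℕ => f0 θ (((i : ℝ) + 1) ^ 2 / n) ^ n / ((i : ℝ) + 1) ^ 2) := by
    funext i
    unfold PP
    rw [Finset.prod_const, Finset.card_univ, Fintype.card_fin]
    congr 3
    ring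
  rw [e] at hs
  refine ⟨hs, ?_⟩
  have hle' := hle
  rw [show (∑' i : ℕ, PP θ (fun _ : Fin n => 1 / (n : ℝ)) (i + 1) / ((i : ℝ) + 1) ^ 2) =
      ∑' i : ℕ, f0 θ (((i : ℝ) + 1) ^ 2 / n) ^ n / ((i : ℝ) + 1) ^ 2 from by rw [e]] at hle'
  exact hle'

theorem sum14 : Summable (fun i : ℕ => 1 / ((i : ℝ) + 14) ^ 2) ∧
    ∑' i : ℕ, 1 / ((i : ℝ) + 14) ^ 2 ≤ 1 / 13 := by
  have hb : ∀ n : ℕ, ∑ i ∈ Finset.range n, 1 / ((i : ℝ) + 14) ^ 2 ≤ 1 / 13 - 1 / ((n : ℝ) + 13) := by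
    intro n
    induction n with
    | zero => simp
    | succ n ih =>
      rw [Finset.sum_range_succ]
      have h1 : 1 / ((n : ℝ) + 14) ^ 2 ≤ 1 / ((n : ℝ) + 13) - 1 / ((n : ℝ) + 14) := by
        rw [div_sub_div _ _ (by positivity) (by positivity), div_le_div_iff₀ (by positivity) (by positivity)]
        nlinarith [(Nat.cast_nonneg n : (0 : ℝ) ≤ n)]
      have h2 : (((n + 1 : ℕ) : ℝ) + 13) = (n : ℝ) + 14 := by push_cast; ring
      rw [h2]
      linarith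
  have hb' : ∀ n : ℕ, ∑ i ∈ Finset.range n, 1 / ((i : ℝ) + 14) ^ 2 ≤ 1 / 13 := fun n => by
    have := hb n
    have h2 : 0 ≤ 1 / ((n : ℝ) + 13) := by positivity
    linarith
  have hs : Summable (fun i : ℕ => 1 / ((i : ℝ) + 14) ^ 2) :=
    summable_of_sum_range_le (fun _ => by positivity) hb'
  exact ⟨hs, Real.tsum_le_of_sum_range_le (fun _ => by positivity) hb'⟩

theorem gVAL : GVAL := by
  intro hPOW hGRID hLB A B θ hBF hTB hCH
  have h0 : 0 < θ := by linarith [hBF.th0]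
  have h1 := hBF.th1
  have key := hLB hGRID A B θ hBF hTB hCH
  constructor
  · obtain ⟨hs, hle⟩ := V_le h0 h1 3 (by norm_num)
    refine le_trans hle ?_
    set a : ℕ → ℝ := fun i => f0 θ (((i : ℝ) + 1) ^ 2 / (3 : ℕ)) ^ 3 / ((i : ℝ) + 1) ^ 2 with ha
    -- the first 13 terms
    have hterm : ∀ i < 13, vR (Nat.div (N.powL (lb B (xn 3 i)) 3) (Nat.mul (Nat.succ i) (Nat.succ i))) -
        vR (cond (Nat.ble 1 (lb B (xn 3 i))) 0
          (Nat.succ (Nat.div (N.powU (N.u0F B (N.idx (xn 3 i))) 3) (Nat.mul (Nat.succ i) (Nat.succ i)))))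
        ≤ a i := by
      intro i hi
      obtain ⟨x1, x2⟩ := xn_bounds 3 i (by norm_num)
      have hlt : xn 3 i < 2 ^ 32 := xn_lt 3 i (by norm_num)
        (by have h13 := Nat.mul_le_mul (show i + 1 ≤ 13 from hi) (show i + 1 ≤ 13 from hi); omega)
      obtain ⟨k1, k2⟩ := key (xn 3 i) _ hlt x1 x2
      have hcast : ((Nat.mul (Nat.succ i) (Nat.succ i) : ℕ) : ℝ) = ((i : ℝ) + 1) ^ 2 := by
        rw [show Nat.mul (Nat.succ i) (Nat.succ i) = (i + 1) * (i + 1) from rfl]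
        push_cast; ring
      have hpos : 0 < ((i : ℝ) + 1) ^ 2 := by positivity
      by_cases hl : 1 ≤ lb B (xn 3 i)
      · rw [show Nat.ble 1 (lb B (xn 3 i)) = true from Nat.ble_eq_true_of_le hl]
        simp only [cond_true, vR_zero, sub_zero]
        refine le_trans (vR_div_le _ _) ?_
        rw [hcast]
        have h3 := (hPOW.1 (lb B (xn 3 i)) 3).1
        have h4 : vR (lb B (xn 3 i)) ^ 3 ≤ f0 θ (((i : ℝ) + 1) ^ 2 / (3 : ℕ)) ^ 3 :=
          pow_le_pow_left₀ (vR_nn _) (k1 hl) 3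
        rw [ha]
        exact div_le_div_of_nonneg_right (le_trans h3 h4) hpos.le
      · have hl0 : lb B (xn 3 i) = 0 := by omega
        have hble : Nat.ble 1 (lb B (xn 3 i)) = false := by
          rw [hl0]; rfl
        rw [hble, hl0, powL_zero 2]
        simp only [cond_false]
        have hz : Nat.div 0 (Nat.mul (Nat.succ i) (Nat.succ i)) = 0 := Nat.zero_div _
        rw [hz, vR_zero, zero_sub]
        have h5 := vR_le_succ_div (N.powU (N.u0F B (N.idx (xn 3 i))) 3)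
          (Nat.mul (Nat.succ i) (Nat.succ i)) (Nat.mul_pos (Nat.succ_pos _) (Nat.succ_pos _))
        rw [hcast] at h5
        have h6 := (hPOW.1 (N.u0F B (N.idx (xn 3 i))) 3).2
        have h7 : |f0 θ (((i : ℝ) + 1) ^ 2 / (3 : ℕ))| ^ 3 ≤ vR (N.u0F B (N.idx (xn 3 i))) ^ 3 :=
          pow_le_pow_left₀ (abs_nonneg _) k2 3
        have h8 : -(|f0 θ (((i : ℝ) + 1) ^ 2 / (3 : ℕ))| ^ 3) ≤ f0 θ (((i : ℝ) + 1) ^ 2 / (3 : ℕ)) ^ 3 := by
          rw [← abs_pow]; exact neg_abs_le _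
        have h9 : -(vR (N.powU (N.u0F B (N.idx (xn 3 i))) 3)) / ((i : ℝ) + 1) ^ 2 ≤ a i := by
          rw [ha]
          exact div_le_div_of_nonneg_right (by linarith) hpos.le
        rw [neg_div] at h9
        linarith
    have hfin : vR (tp B 3 13) - vR (sumN (fun i => cond (Nat.ble 1 (lb B (xn 3 i))) 0
        (Nat.succ (Nat.div (N.powU (N.u0F B (N.idx (xn 3 i))) 3) (Nat.mul (Nat.succ i) (Nat.succ i))))) 13)
        ≤ ∑ i ∈ Finset.range 13, a i := by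
      unfold tp
      rw [vR_sumN, vR_sumN, ← Finset.sum_sub_distrib]
      exact Finset.sum_le_sum fun i hi => hterm i (Finset.mem_range.1 hi)
    -- the tail
    have hc0 : ∀ i : ℕ, -(vR B.c0 ^ 3 * (1 / ((i : ℝ) + 14) ^ 2)) ≤ a (i + 13) := by
      intro i
      have e13 : (((i + 13 : ℕ) : ℝ) + 1) = (i : ℝ) + 14 := by push_cast; ring
      rw [ha]
      simp only
      rw [e13]
      have hx : 64 ≤ ((i : ℝ) + 14) ^ 2 / (3 : ℕ) := by
        rw [le_div_iff₀ (by norm_num)]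
        push_cast
        nlinarith [(Nat.cast_nonneg i : (0 : ℝ) ≤ i)]
      have hp := hBF.fp.p0 _ hx
      have hr : (64 / (((i : ℝ) + 14) ^ 2 / (3 : ℕ))) ^ ((B.gn : ℝ) / 32) ≤ 1 := by
        apply Real.rpow_le_one
        · positivity
        · rw [div_le_one (by positivity)]; exact hx
        · positivity
      have hq : |f0 θ (((i : ℝ) + 14) ^ 2 / (3 : ℕ))| ≤ vR B.c0 :=
        le_trans hp (mul_le_of_le_one_right (vR_nn _) hr)
      have h7 : |f0 θ (((i : ℝ) + 14) ^ 2 / (3 : ℕ))| ^ 3 ≤ vR B.c0 ^ 3 :=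
        pow_le_pow_left₀ (abs_nonneg _) hq 3
      have h8 : -(|f0 θ (((i : ℝ) + 14) ^ 2 / (3 : ℕ))| ^ 3) ≤ f0 θ (((i : ℝ) + 14) ^ 2 / (3 : ℕ)) ^ 3 := by
        rw [← abs_pow]; exact neg_abs_le _
      have hpos : 0 < ((i : ℝ) + 14) ^ 2 := by positivity
      have h9 : -(vR B.c0 ^ 3) / ((i : ℝ) + 14) ^ 2 ≤
          f0 θ (((i : ℝ) + 14) ^ 2 / (3 : ℕ)) ^ 3 / ((i : ℝ) + 14) ^ 2 :=
        div_le_div_of_nonneg_right (by linarith) hpos.le
      calc -(vR B.c0 ^ 3 * (1 / ((i : ℝ) + 14) ^ 2)) = -(vR B.c0 ^ 3) / ((i : ℝ) + 14) ^ 2 := by ring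
        _ ≤ _ := h9
    have hs13 : Summable (fun i => a (i + 13)) := (summable_nat_add_iff 13).2 hs
    have htail : -(vR B.c0 ^ 3 / 13) ≤ ∑' i, a (i + 13) := by
      have h2 : Summable (fun i : ℕ => -(vR B.c0 ^ 3 * (1 / ((i : ℝ) + 14) ^ 2))) :=
        (sum14.1.mul_left _).neg
      have h3 := Summable.tsum_le_tsum hc0 h2 hs13
      rw [tsum_neg, tsum_mul_left] at h3
      have h4 : vR B.c0 ^ 3 * ∑' i : ℕ, 1 / ((i : ℝ) + 14) ^ 2 ≤ vR B.c0 ^ 3 * (1 / 13) :=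
        mul_le_mul_of_nonneg_left sum14.2 (pow_nonneg (vR_nn _) 3)
      linarith
    have hc1 : vR B.c0 ^ 3 / 13 ≤ vR (Nat.succ (Nat.div (N.powU B.c0 3) 13)) := by
      have h5 := vR_le_succ_div (N.powU B.c0 3) 13 (by norm_num)
      have h6 := (hPOW.1 B.c0 3).2
      push_cast at h5
      linarith
    have hsplit := hs.sum_add_tsum_nat_add 13
    have htm : vR (tm B) = vR (sumN (fun i => cond (Nat.ble 1 (lb B (xn 3 i))) 0
        (Nat.succ (Nat.div (N.powU (N.u0F B (N.idx (xn 3 i))) 3) (Nat.mul (Nat.succ i) (Nat.succ i))))) 13) +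
        vR (Nat.succ (Nat.div (N.powU B.c0 3) 13)) := by
      unfold tm
      rw [vR_add]
    rw [htm]
    linarith
  · obtain ⟨hs, hle⟩ := V_le h0 h1 4 (by norm_num)
    refine le_trans hle ?_
    set a : ℕ → ℝ := fun i => f0 θ (((i : ℝ) + 1) ^ 2 / (4 : ℕ)) ^ 4 / ((i : ℝ) + 1) ^ 2 with ha
    have hnn : ∀ i, 0 ≤ a i := fun i => by
      rw [ha]
      simp only
      have : 0 ≤ f0 θ (((i : ℝ) + 1) ^ 2 / (4 : ℕ)) ^ 4 := by positivity
      positivity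
    have hterm : ∀ i < 15, vR (Nat.div (N.powL (lb B (xn 4 i)) 4) (Nat.mul (Nat.succ i) (Nat.succ i)))
        ≤ a i := by
      intro i hi
      obtain ⟨x1, x2⟩ := xn_bounds 4 i (by norm_num)
      have hlt : xn 4 i < 2 ^ 32 := xn_lt 4 i (by norm_num)
        (by have h13 := Nat.mul_le_mul (show i + 1 ≤ 15 from hi) (show i + 1 ≤ 15 from hi); omega)
      obtain ⟨k1, -⟩ := key (xn 4 i) _ hlt x1 x2
      have hcast : ((Nat.mul (Nat.succ i) (Nat.succ i) : ℕ) : ℝ) = ((i : ℝ) + 1) ^ 2 := by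
        rw [show Nat.mul (Nat.succ i) (Nat.succ i) = (i + 1) * (i + 1) from rfl]
        push_cast; ring
      have hpos : 0 < ((i : ℝ) + 1) ^ 2 := by positivity
      by_cases hl : 1 ≤ lb B (xn 4 i)
      · refine le_trans (vR_div_le _ _) ?_
        rw [hcast]
        have h3 := (hPOW.1 (lb B (xn 4 i)) 4).1
        have h4 : vR (lb B (xn 4 i)) ^ 4 ≤ f0 θ (((i : ℝ) + 1) ^ 2 / (4 : ℕ)) ^ 4 :=
          pow_le_pow_left₀ (vR_nn _) (k1 hl) 4
        rw [ha]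
        exact div_le_div_of_nonneg_right (le_trans h3 h4) hpos.le
      · have hl0 : lb B (xn 4 i) = 0 := by omega
        rw [hl0, powL_zero 3]
        have hz : Nat.div 0 (Nat.mul (Nat.succ i) (Nat.succ i)) = 0 := Nat.zero_div _
        rw [hz, vR_zero]
        exact hnn i
    have hfin : vR (tp B 4 15) ≤ ∑ i ∈ Finset.range 15, a i := by
      unfold tp
      rw [vR_sumN]
      exact Finset.sum_le_sum fun i hi => hterm i (Finset.mem_range.1 hi)
    have := hs.sum_le_tsum (Finset.range 15) (fun i _ => hnn i)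
    linarith

end Pool.Agent.Helper83.TH
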